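import Pool.Agent.H24.CL.TargetsK

/-!
# Row HM: torsion points and chains (helper67)
-/

set_option autoImplicit false

open Finset MeasureTheory

namespace Pool.Agent.H67.CLK

open Pool.Agent.H24.CL

theorem mem_H {k q r : ℕ} {a : X k} : a ∈ H k q r ↔ (q ^ r) • a = 0 := Iff.rfl

theorem phi_H (hTO : T_TO) {k q : ℕ} (hq : 1 ≤ q) (r b : ℕ) (a : X k) (ha : a ∈ H k q (r + 1)) :
    phi q b a ∈ H k q r := by
  obtain ⟨h1, _, _, _, h5, _⟩ := hTO k q hq
  obtain ⟨n, rfl⟩ := (h1 (r + 1) a).1 ha
  rw [h5 r b n]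
  exact (h1 r _).2 ⟨_, rfl⟩

theorem Ch_cons {k : ℕ} (q b : ℕ) (c : List ℕ) (a : X k) :
    Ch q (b :: c) a = Ch q c (phi q b a) := rfl

theorem Ch_H (hTO : T_TO) {k q : ℕ} (hq : 1 ≤ q) (c : List ℕ) : ∀ (r : ℕ) (a : X k),
    a ∈ H k q (r + c.length) → Ch q c a ∈ H k q r := by
  induction c with
  | nil =>
    intro r a ha
    show a ∈ H k q r
    simpa using ha
  | cons b c ih =>
    intro r a ha
    rw [Ch_cons]
    refine ih r _ (phi_H hTO hq (r + c.length) b a ?_)
    simpa [List.length_cons, Nat.add_assoc] using ha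

theorem pf_HM (hTO : T_TO) : TK_HM := by
  intro k q hq
  have h2 := Ch_H hTO (k := k) hq
  refine ⟨?_, fun c r a ha => h2 c r a ha, ?_, ?_, ?_⟩
  · intro r s a hrs ha
    rw [mem_H] at ha ⊢
    obtain ⟨t, rfl⟩ := Nat.exists_eq_add_of_le hrs
    rw [pow_add, mul_comm, mul_smul, ha, smul_zero]
  · intro c a ha
    have h3 := h2 c 0 a (by simpa using ha)
    rw [mem_H, pow_zero, one_smul] at h3
    exact h3
  · intro c
    induction c with
    | nil => intro a h; simp at h
    | cons b c ih =>
      intro a _ ha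
      rw [Ch_cons]
      by_cases hc : 1 ≤ c.length
      · refine ih _ hc (phi_H hTO hq (c.length + 1) b a ?_)
        simpa [List.length_cons] using ha
      · have hc0 : c = [] := List.length_eq_zero_iff.1 (by omega)
        subst hc0
        obtain ⟨h1, _, _, _, h5, _⟩ := hTO k q hq
        have ha2 : a ∈ H k q (1 + 1) := by simpa using ha
        have h6 := phi_H hTO hq 1 b a ha2
        obtain ⟨n, rfl⟩ := (h1 (1 + 1) a).1 ha2
        show phi q b (tor q (1 + 1) n) ∈ Ln k q
        refine ⟨?_, ?_⟩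
        · rw [mem_H, pow_one] at h6
          exact h6
        · intro i hi
          rw [h5 1 b n]
          unfold tor
          obtain ⟨i', hi'⟩ : ∃ i', i.val = i' + 1 := ⟨i.val - 1, by omega⟩
          have hq0 : (q : ℝ) ≠ 0 := by
            have : (0 : ℝ) < q := by exact_mod_cast hq
            exact this.ne'
          rw [AddCircle.coe_eq_zero_iff]
          refine ⟨(q : ℤ) ^ i' * ∑ j : Fin k, (Nat.choose (j.val + 1) (i.val + 1) : ℤ) *
            (b : ℤ) ^ (j.val - i.val) * n j, ?_⟩
          have h7 : (q : ℝ) ^ i.val = (q : ℝ) ^ i' * q := by rw [hi', pow_succ]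
          rw [zsmul_eq_mul, mul_one, pow_one]
          push_cast
          rw [h7]
          field_simp
  · intro c
    induction c with
    | nil => intro c' a; rfl
    | cons b c ih =>
      intro c' a
      rw [List.cons_append, Ch_cons, Ch_cons, ih]

end Pool.Agent.H67.CLK
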