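import Pool.Agent.H67.CLK.HM

/-!
# Rows VL and VF: the vanishing lemmas (helper67)
-/

set_option autoImplicit false

open Finset MeasureTheory Polynomial

namespace Pool.Agent.H67.CLK

open Pool.Agent.H24.CL

/-- the coefficients of the derivative polynomial over `ZMod q` -/
noncomputable def F1 {k : ℕ} (q : ℕ) (n : Fin k → ℤ) : (ZMod q)[X] :=
  ∑ l : Fin k, C (((l.val + 1 : ℕ) : ZMod q) * ((n l : ℤ) : ZMod q)) * Polynomial.X ^ l.val

theorem F1_eval {k : ℕ} (q : ℕ) (n : Fin k → ℤ) (b : ℤ) :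
    (F1 q n).eval (b : ZMod q) =
      ((∑ l : Fin k, ((l.val + 1 : ℕ) : ℤ) * b ^ l.val * n l : ℤ) : ZMod q) := by
  unfold F1
  rw [eval_finsetSum]
  push_cast
  refine Finset.sum_congr rfl fun l _ => ?_
  simp only [eval_mul, eval_C, eval_pow, eval_X]
  ring

theorem F1_zero {k q : ℕ} (hq : q.Prime) (hk : k < q) (n : Fin k → ℤ) (h : F1 q n = 0) (l : Fin k) :
    (q : ℤ) ∣ n l := by
  have : Fact q.Prime := ⟨hq⟩
  have h1 : (F1 q n).coeff l.val = ((l.val + 1 : ℕ) : ZMod q) * ((n l : ℤ) : ZMod q) := by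
    unfold F1
    rw [finsetSum_coeff]
    rw [Finset.sum_eq_single l]
    · rw [coeff_C_mul_X_pow, if_pos rfl]
    · intro l' _ hne
      rw [coeff_C_mul_X_pow, if_neg]
      intro h2
      exact hne (Fin.ext h2.symm)
    · intro h2
      exact absurd (Finset.mem_univ l) h2
  rw [h, coeff_zero] at h1
  rcases mul_eq_zero.1 h1.symm with h2 | h2
  · exfalso
    have h3 := (ZMod.natCast_eq_zero_iff (l.val + 1) q).1 h2
    have h4 := Nat.le_of_dvd (by omega) h3
    have := l.2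
    omega
  · exact (ZMod.intCast_zmod_eq_zero_iff_dvd (n l) q).1 h2

theorem F1_deg {k q : ℕ} (n : Fin k → ℤ) (hk : 1 ≤ k) : (F1 q n).natDegree + 1 ≤ k := by
  have h1 : (F1 q n).natDegree ≤ k - 1 := by
    unfold F1
    refine natDegree_sum_le_of_forall_le _ _ fun l _ => ?_
    refine (natDegree_C_mul_X_pow_le _ _).trans ?_
    have := l.2
    omega
  omega

/-- a polynomial of degree less than `k` with a root of multiplicity `t` and enough other roots
vanishes -/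
theorem F1_van {k q : ℕ} (hq : q.Prime) (hk : 1 ≤ k) (n : Fin k → ℤ) (t : ℕ) (b₁ : ℕ) (hb₁ : b₁ < q)
    (hdvd : (Polynomial.X - C ((b₁ : ℕ) : ZMod q)) ^ t ∣ F1 q n) (D : Finset ℕ)
    (hD : ∀ b ∈ D, b < q ∧ (1 ≤ t → b ≠ b₁) ∧ (F1 q n).eval ((b : ℕ) : ZMod q) = 0)
    (hcard : k ≤ D.card + t) : F1 q n = 0 := by
  have : Fact q.Prime := ⟨hq⟩
  by_contra hne
  obtain ⟨G, hG⟩ := hdvd
  have hG0 : G ≠ 0 := by
    rintro rfl
    rw [mul_zero] at hG
    exact hne hG
  have hinj : ∀ b ∈ D, ∀ b' ∈ D, ((b : ℕ) : ZMod q) = ((b' : ℕ) : ZMod q) → b = b' := by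
    intro b hb b' hb' h
    have h1 := (ZMod.natCast_eq_natCast_iff b b' q).1 h
    exact Nat.ModEq.eq_of_lt_of_lt h1 (hD b hb).1 (hD b' hb').1
  have hroot : ∀ b ∈ D, G.eval ((b : ℕ) : ZMod q) = 0 := by
    intro b hb
    obtain ⟨h1, h2, h3⟩ := hD b hb
    rw [hG, eval_mul, eval_pow, eval_sub, eval_X, eval_C] at h3
    rcases mul_eq_zero.1 h3 with h4 | h4
    · exfalso
      have ht : 1 ≤ t := by
        by_contra h5
        have : t = 0 := by omega
        rw [this, pow_zero] at h4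
        exact one_ne_zero h4
      have h5 := pow_eq_zero_iff (by omega : t ≠ 0) |>.1 h4
      rw [sub_eq_zero] at h5
      exact h2 ht (Nat.ModEq.eq_of_lt_of_lt ((ZMod.natCast_eq_natCast_iff b b₁ q).1 h5) h1 hb₁)
    · exact h4
  have h6 : D.card ≤ G.natDegree := by
    have h7 : (D.image fun b : ℕ => ((b : ℕ) : ZMod q)).val ≤ G.roots := by
      rw [Multiset.le_iff_subset (Finset.nodup _)]
      intro x hx
      rw [Finset.mem_val, Finset.mem_image] at hx
      obtain ⟨b, hb, rfl⟩ := hx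
      rw [mem_roots hG0]
      exact hroot b hb
    have h8 := Multiset.card_le_card h7
    have h9 : (D.image fun b : ℕ => ((b : ℕ) : ZMod q)).card = D.card :=
      Finset.card_image_of_injOn fun b hb b' hb' h => hinj b hb b' hb' h
    have h10 : Multiset.card (D.image fun b : ℕ => ((b : ℕ) : ZMod q)).val = D.card := h9
    rw [h10] at h8
    exact h8.trans (card_roots' G)
  have h11 : (F1 q n).natDegree = t + G.natDegree := by
    rw [hG, natDegree_mul (pow_ne_zero _ (X_sub_C_ne_zero _)) hG0, natDegree_pow,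
      natDegree_X_sub_C, mul_one]
  have h12 := F1_deg (q := q) n hk
  omega

theorem chain_dvd (hTO : T_TO) {k q : ℕ} (hq : 1 ≤ q) (i0 : Fin k) (hi0 : i0.val = 0)
    (c : List ℕ) : ∀ n : Fin k → ℤ, (∀ i : Fin k, i.val ≠ 0 → (q : ℤ) ∣ n i) →
      Ch q c (tor q (c.length + 1) n : X k) = 0 → (q : ℤ) ∣ n i0 := by
  obtain ⟨_, _, _, h4, h5, _⟩ := hTO k q hq
  have hzero : ∀ r : ℕ, (tor q r (fun _ => 0) : X k) = 0 := by
    intro r
    funext i
    unfold tor
    simp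
  induction c with
  | nil =>
    intro n _ h
    have h1 : (tor q 1 n : X k) = tor q 1 (fun _ => 0) := by
      rw [hzero]
      exact h
    have h2 := (h4 1 n (fun _ => 0)).1 h1 i0
    simpa using h2
  | cons b c ih =>
    intro n hn h
    rw [Ch_cons, List.length_cons, h5 (c.length + 1) b n] at h
    have h1 := ih _ (fun i hi => by
      refine Dvd.dvd.mul_right ?_ _
      exact dvd_pow_self _ hi) h
    rw [hi0] at h1
    simp only [pow_zero, one_mul, zero_add, Nat.choose_one_right, Nat.sub_zero] at h1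
    rw [← Finset.add_sum_erase _ _ (Finset.mem_univ i0), hi0] at h1
    simp only [zero_add, Nat.cast_one, pow_zero, one_mul] at h1
    refine (Int.dvd_add_left ?_).1 h1
    refine Finset.dvd_sum fun j hj => ?_
    have hj0 : j.val ≠ 0 := by
      intro h2
      exact (Finset.mem_erase.1 hj).1 (Fin.ext (by rw [h2, hi0]))
    exact Dvd.dvd.mul_left (hn j hj0) _

theorem root_of_chain (hTO : T_TO) {k q : ℕ} (hq : 1 ≤ q) (hk : 1 ≤ k) (j : ℕ) (n : Fin k → ℤ)
    (b : ℕ) (c : List ℕ) (hc : c.length + 2 = j) (h : Ch q (b :: c) (tor q j n : X k) = 0) :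
    (F1 q n).eval ((b : ℕ) : ZMod q) = 0 := by
  obtain ⟨_, _, _, _, h5, _⟩ := hTO k q hq
  subst hc
  rw [Ch_cons, h5 (c.length + 1) b n] at h
  have h1 := chain_dvd hTO hq (⟨0, hk⟩ : Fin k) rfl c _ (fun i hi => by
      refine Dvd.dvd.mul_right ?_ _
      exact dvd_pow_self _ hi) h
  simp only [pow_zero, one_mul, zero_add, Nat.choose_one_right, Nat.sub_zero] at h1
  have h2 := F1_eval q n (b : ℤ)
  rw [(ZMod.intCast_zmod_eq_zero_iff_dvd _ q).2 h1] at h2
  simpa using h2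

theorem tor_dvd {k q : ℕ} (hq : 1 ≤ q) (j : ℕ) (hj : 1 ≤ j) (n : Fin k → ℤ)
    (h : ∀ l, (q : ℤ) ∣ n l) : ∃ n' : Fin k → ℤ, (tor q j n : X k) = tor q (j - 1) n' := by
  choose n' hn' using h
  refine ⟨n', ?_⟩
  funext i
  unfold tor
  congr 1
  have hq0 : (q : ℝ) ≠ 0 := by
    have : (0 : ℝ) < q := by exact_mod_cast hq
    exact this.ne'
  obtain ⟨j', rfl⟩ : ∃ j', j = j' + 1 := ⟨j - 1, by omega⟩
  rw [hn' i]
  push_cast
  rw [pow_succ]
  field_simp

theorem pf_VF (hTO : T_TO) (_ : TK_HM) : TK_VF := by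
  intro k q hq hkq j γ D hj hγ hD hcard
  have hq1 : 1 ≤ q := hq.one_lt.le
  obtain ⟨h1, _⟩ := hTO k q hq1
  rcases Nat.eq_zero_or_pos k with hk0 | hk
  · subst hk0
    refine (h1 (j - 1) γ).2 ⟨fun i => i.elim0, ?_⟩
    funext i
    exact i.elim0
  obtain ⟨n, rfl⟩ := (h1 j γ).1 hγ
  have h2 : F1 q n = 0 := by
    refine F1_van hq hk n 0 0 hq.pos (by rw [pow_zero]; exact one_dvd _) D ?_ (by omega)
    intro b hb
    obtain ⟨h3, c, hc, h4⟩ := hD b hb
    exact ⟨h3, fun h => absurd h (by omega), root_of_chain hTO hq1 hk j n b c hc h4⟩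
  obtain ⟨n', hn'⟩ := tor_dvd (k := k) hq1 j (by omega) n (F1_zero hq hkq n h2)
  exact (h1 (j - 1) _).2 ⟨n', hn'⟩

theorem pf_VL (hTO : T_TO) (hHM : TK_HM) : TK_VL := by
  intro k q hq hkq r j b₁ γ h D hr hrj hjk hb₁ hγ hh hphi hD hcard
  have hq1 : 1 ≤ q := hq.one_lt.le
  have hk : 1 ≤ k := by omega
  obtain ⟨h1, _, _, h4, h5, _⟩ := hTO k q hq1
  obtain ⟨n, rfl⟩ := (h1 j γ).1 hγ
  obtain ⟨n2, rfl⟩ := (h1 r h).1 hh
  have hq0 : (q : ℝ) ≠ 0 := by
    have : (0 : ℝ) < q := by exact_mod_cast hq1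
    exact this.ne'
  set N : Fin k → ℤ := fun i => n i - (q : ℤ) ^ (j - r) * n2 i with hN
  have h6 : (tor q j n : X k) - tor q r n2 = tor q j N := by
    funext i
    show (tor q j n : X k) i - (tor q r n2 : X k) i = (tor q j N : X k) i
    unfold tor
    rw [← AddCircle.coe_sub]
    congr 1
    rw [hN]
    push_cast
    have h7 : (q : ℝ) ^ j = (q : ℝ) ^ (j - r) * (q : ℝ) ^ r := by
      rw [← pow_add]
      congr 1
      omega
    rw [h7]
    field_simp
  rw [h6] at hphi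
  have hjj : j = (j - 1) + 1 := by omega
  have hzero : (tor q (j - 1) (fun _ => 0) : X k) = 0 := by
    funext i
    unfold tor
    simp
  rw [hjj, h5 (j - 1) b₁ N, ← hzero] at hphi
  have h8 := (h4 (j - 1) _ _).1 hphi
  have h9 : ∀ d : ℕ, d + 2 ≤ j → ((∑ l : Fin k, (Nat.choose (l.val + 1) (d + 1) : ℤ) *
      (b₁ : ℤ) ^ (l.val - d) * n l : ℤ) : ZMod q) = 0 := by
    intro d hd
    have h10 := h8 ⟨d, by omega⟩
    rw [sub_zero] at h10
    have h11 : (q : ℤ) ^ (j - 1) = (q : ℤ) ^ d * (q : ℤ) ^ (j - 1 - d) := by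
      rw [← pow_add]
      congr 1
      omega
    rw [h11] at h10
    have hqz : (q : ℤ) ^ d ≠ 0 := pow_ne_zero _ (by exact_mod_cast hq.ne_zero)
    have h12 := (mul_dvd_mul_iff_left hqz).1 h10
    have h13 : (q : ℤ) ∣ (q : ℤ) ^ (j - 1 - d) := dvd_pow_self _ (by omega)
    have h14 := (ZMod.intCast_zmod_eq_zero_iff_dvd _ q).2 (h13.trans h12)
    rw [← h14]
    push_cast
    refine Finset.sum_congr rfl fun l _ => ?_
    congr 1
    rw [hN]
    have h15 : ((q : ℤ) : ZMod q) ^ (j - r) = 0 := by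
      have h16 : ((q : ℤ) : ZMod q) = 0 := by simp
      rw [h16, zero_pow (by omega)]
    push_cast
    push_cast at h15
    rw [h15, zero_mul, sub_zero]
  have hdvd : (Polynomial.X - C ((b₁ : ℕ) : ZMod q)) ^ (j - 1) ∣ F1 q n := by
    rw [X_sub_C_pow_dvd_iff, X_pow_dvd_iff]
    intro d hd
    unfold F1
    rw [Polynomial.sum_comp, finsetSum_coeff]
    have h17 := h9 d (by omega)
    push_cast at h17
    have h18 : ∀ l : Fin k, ((C (((l.val + 1 : ℕ) : ZMod q) * ((n l : ℤ) : ZMod q)) *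
        Polynomial.X ^ l.val).comp (Polynomial.X + C ((b₁ : ℕ) : ZMod q))).coeff d =
        ((d + 1 : ℕ) : ZMod q) * (((Nat.choose (l.val + 1) (d + 1) : ℕ) : ZMod q) *
          ((b₁ : ℕ) : ZMod q) ^ (l.val - d) * ((n l : ℤ) : ZMod q)) := by
      intro l
      rw [mul_comp, C_comp, pow_comp, X_comp, coeff_C_mul, coeff_X_add_C_pow]
      have h19 : ((l.val + 1 : ℕ) : ZMod q) * ((Nat.choose l.val d : ℕ) : ZMod q) =
          ((Nat.choose (l.val + 1) (d + 1) : ℕ) : ZMod q) * ((d + 1 : ℕ) : ZMod q) := by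
        rw [← Nat.cast_mul, ← Nat.cast_mul, Nat.add_one_mul_choose_eq]
      linear_combination ((n l : ℤ) : ZMod q) * ((b₁ : ℕ) : ZMod q) ^ (l.val - d) * h19
    rw [Finset.sum_congr rfl fun l _ => h18 l, ← Finset.mul_sum, h17, mul_zero]
  have h20 : F1 q n = 0 := by
    refine F1_van hq hk n (j - 1) b₁ hb₁ hdvd D ?_ (by omega)
    intro b hb
    obtain ⟨h3, hne, c, hc, h4'⟩ := hD b hb
    exact ⟨h3, fun _ => hne, root_of_chain hTO hq1 hk j n b c hc h4'⟩
  obtain ⟨n', hn'⟩ := tor_dvd (k := k) hq1 j (by omega) n (F1_zero hq hkq n h20)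
  exact (h1 (j - 1) _).2 ⟨n', hn'⟩

end Pool.Agent.H67.CLK
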